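import Pool.Agent.W684.CF.Stm

/-!
# Chains of sigma-ideals
-/

set_option autoImplicit false
set_option linter.unusedSectionVars false

namespace Pool.Agent.W924.CF

open Classical Set Cardinal
open scoped Cardinal
open Pool.Agent.W684.CF

section

variable {X Ω : Type} [LinearOrder Ω] [WellFoundedLT Ω]

/-- the members of `I` which are in all `J b'`, `b ≤ b'` -/
def IP (I : Set (Set X)) (J : Ω → Set (Set X)) (b : Ω) : Set (Set X) :=
  {A | A ∈ I ∧ ∀ b', b ≤ b' → A ∈ J b'}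

/-- the points where `IP` grows -/
def EE (I : Set (Set X)) (J : Ω → Set (Set X)) : Set Ω :=
  {b | ∀ b', b' < b → IP I J b' ≠ IP I J b}

lemma IP_mono (I : Set (Set X)) (J : Ω → Set (Set X)) {b c : Ω} (h : b ≤ c) :
    IP I J b ⊆ IP I J c := fun _ hA => ⟨hA.1, fun b' hb' => hA.2 b' (h.trans hb')⟩

lemma IP_sigma {I : Set (Set X)} (hI : SigmaIdeal I) {J : Ω → Set (Set X)}
    (hJ : ∀ β, SigmaIdeal (J β)) (b : Ω) : SigmaIdeal (IP I J b) := by
  refine ⟨⟨hI.1, fun b' _ => (hJ b').1⟩, fun A hA B hB => ⟨hI.2.1 A hA.1 B hB, fun b' hb' =>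
    (hJ b').2.1 A (hA.2 b' hb') B hB⟩, fun f hf => ⟨hI.2.2 f fun n => (hf n).1, fun b' hb' =>
      (hJ b').2.2 f fun n => (hf n).2 b' hb'⟩⟩

lemma exists_EE (I : Set (Set X)) (J : Ω → Set (Set X)) (b : Ω) :
    ∃ b0 ∈ EE I J, b0 ≤ b ∧ IP I J b0 = IP I J b := by
  have hne : {c : Ω | IP I J c = IP I J b}.Nonempty := ⟨b, rfl⟩
  let b0 := WellFounded.min (wellFounded_lt : WellFounded ((· < ·) : Ω → Ω → Prop)) _ hne
  have h1 : IP I J b0 = IP I J b := WellFounded.min_mem _ _ hne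
  refine ⟨b0, fun b' hb' h => ?_, ?_, h1⟩
  · exact WellFounded.not_lt_min _ _ (show b' ∈ {c : Ω | IP I J c = IP I J b} from h.trans h1) hb'
  · by_contra hcon
    exact WellFounded.not_lt_min _ _ (show b ∈ {c : Ω | IP I J c = IP I J b} from rfl) (not_le.1 hcon)

end

theorem chain : S_CHAIN := by
  intro X Ω _ _ I hI J hJ hJ2 hJ3
  let E : Type := {b : Ω // b ∈ EE I J}
  let ti : E → Ordinal.{0} := fun e => Ordinal.typein (α := E) (· < ·) e
  let γ : Ordinal.{0} := Ordinal.type (α := E) (· < ·)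
  have hti : ∀ e e' : E, ti e < ti e' ↔ e < e' := fun e e' => Ordinal.typein_lt_typein _
  have hinj : ∀ e e' : E, ti e = ti e' → e = e' := fun e e' h => Ordinal.typein_inj _ |>.1 h
  have hsurj : ∀ α < γ, ∃ e : E, ti e = α := fun α hα => by
    obtain ⟨e, he⟩ := Ordinal.mem_range_typein_iff (α := E) (· < ·) |>.2 hα
    exact ⟨e, he⟩
  have hlt : ∀ e : E, ti e < γ := fun e => Ordinal.typein_lt_type _ e
  have hex : ∀ A ∈ I, ∃ b, A ∈ IP I J b := fun A hA => by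
    obtain ⟨β, hβ⟩ := hJ3 A hA
    exact ⟨β, hA, hβ⟩
  have hexE : ∀ A ∈ I, ∃ e : E, A ∈ IP I J e.1 := fun A hA => by
    obtain ⟨b, hb⟩ := hex A hA
    obtain ⟨b0, h1, h2, h3⟩ := exists_EE I J b
    exact ⟨⟨b0, h1⟩, by rw [h3]; exact hb⟩
  have hnomax : ∀ e : E, ∃ e' : E, e < e' := by
    intro e
    by_contra hcon
    push Not at hcon
    apply hJ2 e.1
    intro A hA
    obtain ⟨e', he'⟩ := hexE A hA
    have h1 : IP I J e'.1 ⊆ IP I J e.1 := IP_mono I J (hcon e')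
    exact (h1 he').2 e.1 le_rfl
  let J' : Ordinal.{0} → Set (Set X) := fun α => {A | ∃ e : E, ti e = α ∧ A ∈ IP I J e.1}
  have hJ' : ∀ e : E, J' (ti e) = IP I J e.1 := by
    intro e
    ext A
    constructor
    · rintro ⟨e', h1, h2⟩
      rwa [hinj e' e h1] at h2
    · exact fun h => ⟨e, rfl, h⟩
  refine ⟨γ, ⟨?_, ?_, J', ?_, ?_, ?_⟩, ?_⟩
  · obtain ⟨e, _⟩ := hexE ∅ hI.1
    exact (zero_le (a := ti e)).trans_lt (hlt e)
  · intro α hα
    obtain ⟨e, rfl⟩ := hsurj α hα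
    obtain ⟨e', he'⟩ := hnomax e
    have h1 : ti e < ti e' := (hti e e').2 he'
    exact (Order.add_one_le_of_lt h1).trans_lt (hlt e')
  · intro α hα
    obtain ⟨e, rfl⟩ := hsurj α hα
    rw [hJ']
    exact IP_sigma hI hJ e.1
  · intro α β hαβ hβ
    obtain ⟨e', rfl⟩ := hsurj β hβ
    obtain ⟨e, rfl⟩ := hsurj α (hαβ.trans hβ)
    rw [hJ', hJ']
    have h1 : e < e' := (hti e e').1 hαβ
    exact ssubset_of_subset_of_ne (IP_mono I J (le_of_lt h1)) (e'.2 e.1 h1)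
  · intro A
    constructor
    · intro hA
      obtain ⟨e, he⟩ := hexE A hA
      exact ⟨ti e, hlt e, by rw [hJ']; exact he⟩
    · rintro ⟨α, hα, e, h1, h2⟩
      exact h2.1
  · exact Ordinal.type_le_iff'.2 ⟨Subtype.relEmbedding _ _⟩

theorem add_le : S_ADD := by
  intro X I hI γ hγ
  obtain ⟨h0, hlim, J, hJ1, hJ2, hJ3⟩ := hγ
  have hA : ∀ α : Ordinal.{0}, ∃ A : Set X, α < γ → A ∈ J (α + 1) ∧ A ∉ J α := by
    intro α
    by_cases hα : α < γ
    · obtain ⟨A, h1, h2⟩ := exists_of_ssubset (hJ2 α (α + 1) (lt_add_one α) (hlim α hα))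
      exact ⟨A, fun _ => ⟨h1, h2⟩⟩
    · exact ⟨∅, fun h => absurd h hα⟩
  choose A hA using hA
  rw [Cardinal.ord_le]
  have h1 : #(range fun t : γ.ToType => A (Ordinal.typein (α := γ.ToType) (· < ·) t)) ≤ γ.card := by
    refine Cardinal.mk_range_le.trans (le_of_eq ?_)
    simp
  refine le_trans (csInf_le' ⟨_, ?_, ?_, rfl⟩) h1
  · rintro _ ⟨t, rfl⟩
    have ht : Ordinal.typein (α := γ.ToType) (· < ·) t < γ := Ordinal.typein_lt_self t
    exact (hJ3 _).2 ⟨_, hlim _ ht, (hA _ ht).1⟩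
  · intro hcon
    obtain ⟨β, hβ, hU⟩ := (hJ3 _).1 hcon
    apply (hA β hβ).2
    refine (hJ1 β hβ).2.1 _ hU _ ?_
    obtain ⟨t, ht⟩ : ∃ t : γ.ToType, Ordinal.typein (α := γ.ToType) (· < ·) t = β := by
      obtain ⟨e, he⟩ := Ordinal.mem_range_typein_iff (α := γ.ToType) (· < ·) |>.2
        (show β < Ordinal.type (α := γ.ToType) (· < ·) by rwa [Ordinal.type_toType])
      exact ⟨e, he⟩
    intro x hx
    exact ⟨A β, ⟨t, by simp only [ht]⟩, hx⟩

end Pool.Agent.W924.CF
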