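import Pool.Agent.W924.CF.Part

/-!
# The dominating family is forced
-/

set_option autoImplicit false
set_option linter.unusedSectionVars false

namespace Pool.Agent.W924.CF

open Classical Pool.Agent.Helper669.Forcing
open Pool.Agent.W684.CF

theorem dominated (hE : S_EXT) (hR : S_RAWF) : S_DOM := by
  intro M I W rs _ _ _ Γ hG hccc Ω _ hc hnrs hreq p
  let f : Ω → ℕ → ℕ → Set (PP Γ) := fun β n b =>
    {r | n < (PP.toC r (hc β)).stem.length ∧ ((PP.toC r (hc β)).stem.getD n ∅).sup id = b}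
  refine mem_fex.2 fun p1 hp1 => ⟨p1, le_rfl, f, ?_, ?_⟩
  · -- functions
    intro β
    refine ⟨fun n => ?_, fun n y y' => ?_⟩
    · refine mem_fex.2 fun r hr => ?_
      obtain ⟨r', hr', hlen, -⟩ := hE M I W rs Γ hG (hc β) (n + 1) (PP.toC r)
      refine ⟨(r' : PP Γ), hr', ((r' (hc β)).stem.getD n ∅).sup id, ?_⟩
      exact meets_of_mem (P := PP Γ) (N := f β n _) (p := r') ⟨hlen, rfl⟩
    · refine mem_fimp.2 fun r hr h => ⟨r, le_rfl, ?_⟩
      obtain ⟨s, hs, z, hz, hsz⟩ := h.1 r le_rfl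
      obtain ⟨s', hs', z', hz', hsz'⟩ := h.2 s hs
      have h1 : le Γ Set.univ (PP.toC s') (PP.toC z) := hs'.trans hsz
      have h2 : le Γ Set.univ (PP.toC s') (PP.toC z') := hsz'
      show y = y'
      rw [← hz.2, ← hz'.2, getD_eq_of_common h1 h2 hz.1 hz'.1]
  · intro g
    refine mem_fimp.2 fun q hq hg => ⟨q, le_rfl, ?_⟩
    obtain ⟨X, hX⟩ := hR M I W rs Γ hccc g q hg
    obtain ⟨β₀, hβ₀⟩ := hreq X
    refine mem_fex.2 fun q1 hq1 => ⟨q1, le_rfl, β₀, ?_⟩
    intro β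
    refine mem_fimp.2 fun q2 hq2 hβ => ⟨q2, le_rfl, ?_⟩
    obtain ⟨k, hk⟩ := hβ₀ β hβ
    obtain ⟨-, hs⟩ := hG.always _ _ _ hk
    refine mem_fex.2 fun r hr => ?_
    let r1 : Cond M rs := upd (PP.toC r) (hc β) ⟨(PP.toC r (hc β)).stem, insert k (PP.toC r (hc β)).pr⟩
      fun h => absurd h (hnrs β)
    have hr1j : r1 (hc β) = ⟨(PP.toC r (hc β)).stem, insert k (PP.toC r (hc β)).pr⟩ :=
      upd_same _ _ _ _
    have hr1 : le Γ Set.univ r1 (PP.toC r) := by
      intro i _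
      by_cases hi : i = hc β
      · subst hi
        exact ext_same_stem (by rw [hr1j]) (by rw [hr1j]; exact Finset.subset_insert _ _)
      · exact ext_of_eq (upd_of_ne _ _ _ hi)
    refine ⟨(r1 : PP Γ), hr1, (PP.toC r (hc β)).stem.length, ?_⟩
    intro n
    refine mem_fimp.2 fun R2 hR2 hn => ⟨R2, le_rfl, ?_⟩
    have hn' : (r1 (hc β)).stem.length ≤ n := by rw [hr1j]; exact hn
    refine mem_fex.2 fun R3 hR3 => ?_
    obtain ⟨a1, ha1, hl1, -⟩ := hE M I W rs Γ hG (hc β) (n + 1) (PP.toC R3)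
    obtain ⟨a2, ha2, v, hv⟩ := Val.dense (Γ := Γ) low_univ a1 X n
    have h2R3 : (@LE.le (PP Γ) _ a2 R3) := le_trans' low_univ ha2 ha1
    have h2r1 : (@LE.le (PP Γ) _ a2 r1) := h2R3.trans (hR3.trans hR2)
    have h2q : (@LE.le (PP Γ) _ a2 q) :=
      h2r1.trans (PP.le_def.2 hr1 |>.trans (hr.trans (hq2.trans hq1)))
    have hlj : n < (a2 (hc β)).stem.length := lt_of_lt_of_le hl1 (length_le (hc β) ha2)
    have hmem : v ∈ (a2 (hc β)).stem.getD n ∅ := by
      have h1 : ext Γ (hc β) a2 r1 := h2r1 (hc β) (Set.mem_univ _)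
      rw [ext_iff] at h1
      refine h1.2.2 k (by rw [hr1j]; exact Finset.mem_insert_self _ _) _ _ hk n hn' hlj a2
        (le_refl' _ _) v ?_ ?_
      · exact (Val.iff_of_supp (low_below _) (Set.subset_univ _) hs).1 hv
      · intro c ε h
        exact absurd h (by simp)
    refine ⟨(a2 : PP Γ), h2R3, v, ?_⟩
    refine mem_fex.2 fun b hb => ⟨b, le_rfl, ((a2 (hc β)).stem.getD n ∅).sup id, ?_, ?_, ?_⟩
    · exact down_meets _ _ (hX a2 h2q n v hv) _ hb
    · exact down_meets _ _ (meets_of_mem (P := PP Γ) (N := f β n _) (p := a2) ⟨hlj, rfl⟩) _ hb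
    · exact Finset.le_sup (f := id) hmem

end Pool.Agent.W924.CF
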