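import Pool.Agent.W924.CF.Mea

/-!
# `cofin(M) = add(M)` for the ideal of the meager sets
-/

set_option autoImplicit false

namespace Pool.Agent.W924.CF

open Classical Set
open scoped Cardinal
open Pool.Agent.W684.CF

/-- different from `w` on all intervals of the partition -/
def CL (P : ℕ → Prop) (w : Cant) : Set Cant :=
  {x | ∀ a a', Next P a a' → ∃ n, a ≤ n ∧ n < a' ∧ x n ≠ w n}

/-- different from `u` on all intervals of the partition from `m` on -/
def EM (K : ℕ → Prop) (u : Cant) (m : ℕ) : Set Cant :=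
  {x | ∀ b b', m ≤ b → Next K b b' → ∃ n, b ≤ n ∧ n < b' ∧ x n ≠ u n}

lemma isClosed_EM (K : ℕ → Prop) (u : Cant) (m : ℕ) : IsClosed (EM K u m) := by
  rw [← isOpen_compl_iff]
  have h2 : (EM K u m)ᶜ = ⋃ a, ⋃ a', ⋃ (_ : m ≤ a ∧ Next K a a'),
        ⋂ n ∈ Set.Ico a a', {x : Cant | x n = u n} := by
    ext x
    simp only [EM, Set.mem_compl_iff, Set.mem_ofPred_eq, not_forall, not_exists, Set.mem_iUnion,
      Set.mem_iInter, Set.mem_Ico]
    constructor
    · rintro ⟨a, a', ha, hn, h⟩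
      refine ⟨a, a', ⟨ha, hn⟩, fun n hn => ?_⟩
      by_contra hne
      exact h n ⟨hn.1, hn.2, hne⟩
    · rintro ⟨a, a', ⟨ha, hn⟩, h⟩
      exact ⟨a, a', ha, hn, fun n ⟨h3, h4, h5⟩ => h5 (h n ⟨h3, h4⟩)⟩
  rw [h2]
  refine isOpen_iUnion fun a => isOpen_iUnion fun a' => isOpen_iUnion fun _ => ?_
  exact (Set.finite_Ico a a').isOpen_biInter fun n _ => isOpen_eq_at n _

lemma CL_eq (P : ℕ → Prop) (w : Cant) : CL P w = EM P w 0 := by
  ext x
  simp [CL, EM]

lemma isClosed_CL (P : ℕ → Prop) (w : Cant) : IsClosed (CL P w) := by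
  rw [CL_eq]
  exact isClosed_EM P w 0

lemma CL_nonempty (P : ℕ → Prop) (w : Cant) : (CL P w).Nonempty :=
  ⟨fun n => !(w n), fun a a' h => ⟨a, le_rfl, h.1, by simp⟩⟩

lemma CL_subset_NM (P : ℕ → Prop) (w : Cant) : CL P w ⊆ NM P w :=
  fun _ hx => ⟨0, fun a a' _ h => hx a a' h⟩

lemma NM_eq (K : ℕ → Prop) (u : Cant) : NM K u = ⋃ m, EM K u m := by
  ext x
  simp [NM, EM]

/-- the traces on `CL P w` of the sets which are meager there -/
def JJ (P : ℕ → Prop) (w : Cant) : Set (Set Cant) :=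
  {A | IsMeagre ((↑) ⁻¹' A : Set (CL P w))}

lemma sigmaIdeal_JJ (P : ℕ → Prop) (w : Cant) : SigmaIdeal (JJ P w) := by
  refine ⟨?_, fun A hA B hB => ?_, fun f hf => ?_⟩
  · show IsMeagre _
    rw [preimage_empty]
    exact IsMeagre.empty
  · exact IsMeagre.mono (preimage_mono hB) hA
  · show IsMeagre _
    rw [preimage_iUnion]
    exact isMeagre_iUnion hf

lemma sigmaIdeal_meager : SigmaIdeal MeagerSets := by
  refine ⟨IsMeagre.empty, fun A hA B hB => IsMeagre.mono hB hA, fun f hf => ?_⟩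
  exact isMeagre_iUnion hf

lemma CL_not_mem (P : ℕ → Prop) (w : Cant) : CL P w ∉ JJ P w := by
  intro h
  have h1 : IsMeagre (univ : Set (CL P w)) := by
    have : ((↑) ⁻¹' (CL P w) : Set (CL P w)) = univ := by
      ext x; simp
    rw [← this]
    exact h
  have : CompactSpace (CL P w) := isCompact_iff_compactSpace.1 (isClosed_CL P w).isCompact
  have : Nonempty (CL P w) := (CL_nonempty P w).to_subtype
  exact not_isMeagre_of_isOpen isOpen_univ univ_nonempty h1

/-- the key combinatorial step -/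
lemma key {P K : ℕ → Prop} (hP : Inf P) {w u : Cant}
    (h : ¬ IsMeagre ((↑) ⁻¹' (NM K u) : Set (CL P w))) : NM P w ⊆ NM K u := by
  -- some closed piece has interior
  have h1 : ∃ m, ¬ IsNowhereDense ((↑) ⁻¹' (EM K u m) : Set (CL P w)) := by
    by_contra hcon
    push Not at hcon
    apply h
    rw [NM_eq, preimage_iUnion]
    exact isMeagre_iUnion fun m => (hcon m).isMeagre
  obtain ⟨m, hm⟩ := h1
  have hcl : IsClosed ((↑) ⁻¹' (EM K u m) : Set (CL P w)) :=
    (isClosed_EM K u m).preimage continuous_subtype_val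
  rw [hcl.isNowhereDense_iff, ← Ne, ← nonempty_iff_ne_empty] at hm
  obtain ⟨⟨z, hz⟩, hzi⟩ := hm
  obtain ⟨O, hOs, hO⟩ := isOpen_induced_iff.1 (isOpen_interior (s := ((↑) ⁻¹' (EM K u m) : Set (CL P w))))
  have hzO : z ∈ O := by
    have : (⟨z, hz⟩ : CL P w) ∈ (Subtype.val ⁻¹' O : Set (CL P w)) := by
      rw [hO]; exact hzi
    exact this
  obtain ⟨k, hk⟩ := exists_cyl hOs hzO
  have hE : ∀ x ∈ CL P w, (∀ i < k, x i = z i) → x ∈ EM K u m := by
    intro x hx hxz
    have h2 : (⟨x, hx⟩ : CL P w) ∈ (Subtype.val ⁻¹' O : Set (CL P w)) := hk x hxz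
    rw [hO] at h2
    have h3 : (⟨x, hx⟩ : CL P w) ∈ ((↑) ⁻¹' (EM K u m) : Set (CL P w)) := interior_subset h2
    exact h3
  obtain ⟨p, hpk, hp⟩ := hP k
  -- large intervals of `K` contain an interval of `P` on which `w = u`
  have hcap : ∀ b b', m ≤ b → p ≤ b → Next K b b' →
      ∃ a a', b ≤ a ∧ a' ≤ b' ∧ Next P a a' ∧ ∀ n, a ≤ n → n < a' → w n = u n := by
    intro b b' hmb hpb hbb
    by_contra hcon
    push Not at hcon
    let S : ℕ → Prop := fun n => ∃ a a', Next P a a' ∧ a ≤ n ∧ n < a' ∧ a < b' ∧ b < a'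
    let x : Cant := fun n => if b ≤ n ∧ n < b' then u n else if S n then !(w n) else z n
    have hx1 : ∀ n, b ≤ n → n < b' → x n = u n := fun n h1 h2 => if_pos ⟨h1, h2⟩
    have hx2 : ∀ n, ¬ (b ≤ n ∧ n < b') → S n → x n = !(w n) := fun n h1 h2 => by
      show (if b ≤ n ∧ n < b' then u n else if S n then !(w n) else z n) = _
      rw [if_neg h1, if_pos h2]
    have hx3 : ∀ n, ¬ (b ≤ n ∧ n < b') → ¬ S n → x n = z n := fun n h1 h2 => by
      show (if b ≤ n ∧ n < b' then u n else if S n then !(w n) else z n) = _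
      rw [if_neg h1, if_neg h2]
    have hxC : x ∈ CL P w := by
      intro a a' hn
      by_cases hin : b ≤ a ∧ a' ≤ b'
      · obtain ⟨n, h1, h2, h3⟩ := hcon a a' hin.1 hin.2 hn
        refine ⟨n, h1, h2, ?_⟩
        rw [hx1 n (hin.1.trans h1) (h2.trans_le hin.2)]
        exact fun h4 => h3 h4.symm
      · by_cases hme : a < b' ∧ b < a'
        · have hS : ∀ n, a ≤ n → n < a' → S n := fun n h1 h2 => ⟨a, a', hn, h1, h2, hme.1, hme.2⟩
          by_cases hab : a < b
          · refine ⟨a, le_rfl, hn.1, ?_⟩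
            rw [hx2 a (by omega) (hS a le_rfl hn.1)]
            simp
          · have h1 : b' < a' := by omega
            refine ⟨b', hme.1.le, h1, ?_⟩
            rw [hx2 b' (by omega) (hS b' hme.1.le h1)]
            simp
        · obtain ⟨n, h1, h2, h3⟩ := hz a a' hn
          refine ⟨n, h1, h2, ?_⟩
          rw [hx3 n (by have := hbb.1; omega) ?_]
          · exact h3
          · rintro ⟨c, c', hc, h4, h5, h6, h7⟩
            have h8 : c = a := by
              rcases hc.2.2.2 a hn.2.1 with h9 | h9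
              · rcases hn.2.2.2 c hc.2.1 with h10 | h10
                · exact le_antisymm h10 h9
                · omega
              · omega
            subst h8
            have := Next.unique hc hn
            subst this
            exact hme ⟨h6, h7⟩
    have hxk : ∀ i < k, x i = z i := by
      intro i hi
      apply hx3 i (by omega)
      rintro ⟨c, c', hc, h4, h5, h6, h7⟩
      rcases hc.2.2.2 p hp with h9 | h9 <;> omega
    obtain ⟨n, h1, h2, h3⟩ := hE x hxC hxk b b' hmb hbb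
    exact h3 (hx1 n h1 h2)
  rintro x ⟨N, hN⟩
  refine ⟨max N (max m p), fun b b' hb hbb => ?_⟩
  obtain ⟨a, a', h1, h2, h3, h4⟩ := hcap b b' ((le_max_left m p).trans ((le_max_right _ _).trans hb))
    ((le_max_right m p).trans ((le_max_right _ _).trans hb)) hbb
  obtain ⟨n, h5, h6, h7⟩ := hN a a' (((le_max_left _ _).trans hb).trans h1) h3
  exact ⟨n, h1.trans h5, h6.trans_le h2, by rwa [← h4 n h5 h6]⟩

lemma isMeagre_singleton (x : Cant) : IsMeagre ({x} : Set Cant) := by
  apply IsNowhereDense.isMeagre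
  rw [isClosed_singleton.isNowhereDense_iff, eq_empty_iff_forall_notMem]
  intro m hm
  obtain ⟨k, hk⟩ := exists_cyl isOpen_interior hm
  have h1 : m ∈ ({x} : Set Cant) := interior_subset hm
  have h2 : (fun i => if i < k then m i else !(m i)) ∈ ({x} : Set Cant) :=
    interior_subset (hk (fun i => if i < k then m i else !(m i)) fun i hi => if_pos hi)
  rw [mem_singleton_iff] at h1 h2
  have h3 := congrFun h2 k
  rw [← h1] at h3
  simp at h3

lemma univ_not_meager : (univ : Set Cant) ∉ MeagerSets :=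
  not_isMeagre_of_isOpen isOpen_univ univ_nonempty

theorem meagre (hC : S_CHAIN) (hA : S_ADD) : S_MEAGRE := by
  set κ := addNum MeagerSets with hκ
  have hne : {c | ∃ F : Set (Set Cant), F ⊆ MeagerSets ∧ ⋃₀ F ∉ MeagerSets ∧ #F = c}.Nonempty := by
    refine ⟨_, range (fun x : Cant => ({x} : Set Cant)), ?_, ?_, rfl⟩
    · rintro _ ⟨x, rfl⟩
      exact isMeagre_singleton x
    · have : ⋃₀ range (fun x : Cant => ({x} : Set Cant)) = univ := by
        ext x; simp
      rw [this]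
      exact univ_not_meager
  obtain ⟨F, hF1, hF2, hF3⟩ := csInf_mem hne
  change #F = κ at hF3
  have hmin : ∀ G : Set (Set Cant), G ⊆ MeagerSets → ⋃₀ G ∉ MeagerSets → κ ≤ #G :=
    fun G h1 h2 => csInf_le' ⟨G, h1, h2, rfl⟩
  -- enumerate `F`
  have hcard : #κ.ord.ToType = #F := by rw [Cardinal.mk_ord_toType, hF3]
  obtain ⟨e⟩ := Cardinal.eq.1 hcard
  have hB : ∀ η : κ.ord.ToType, IsMeagre (⋃ ζ ∈ Iic η, (e ζ : Set Cant)) := by
    intro η
    have h1 : (⋃ ζ ∈ Iic η, (e ζ : Set Cant)) = ⋃₀ ((fun ζ => (e ζ : Set Cant)) '' Iio η) ∪ e η := by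
      ext x
      simp only [mem_iUnion, mem_Iic, sUnion_image, mem_union, mem_Iio, exists_prop]
      constructor
      · rintro ⟨ζ, h1, h2⟩
        rcases h1.lt_or_eq with h3 | rfl
        · exact Or.inl ⟨ζ, h3, h2⟩
        · exact Or.inr h2
      · rintro (⟨ζ, h1, h2⟩ | h)
        · exact ⟨ζ, h1.le, h2⟩
        · exact ⟨η, le_rfl, h⟩
    rw [h1]
    have h2 : ⋃₀ ((fun ζ => (e ζ : Set Cant)) '' Iio η) ∈ MeagerSets := by
      by_contra hcon
      have h3 := hmin _ (by
        rintro _ ⟨ζ, _, rfl⟩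
        exact hF1 (e ζ).2) hcon
      have h4 : #((fun ζ => (e ζ : Set Cant)) '' Iio η) ≤ #(Iio η) := Cardinal.mk_image_le
      have h5 : #(Iio η) < κ := Cardinal.mk_Iio_toType_ord_lt η
      exact absurd (h3.trans h4) (not_le.2 h5)
    have h3 : (e η : Set Cant) ∈ MeagerSets := hF1 (e η).2
    rw [union_eq_iUnion]
    apply isMeagre_iUnion
    intro b
    cases b
    · exact h3
    · exact h2
  choose P hP w hw using fun η => exists_NM (hB η)
  have hlarge : ∀ A ∈ MeagerSets, ∃ η, ∀ η', η ≤ η' → A ∈ JJ (P η') (w η') := by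
    intro A hAm
    by_contra hcon
    push Not at hcon
    obtain ⟨K, hK, u, hu⟩ := exists_NM hAm
    apply hF2
    refine IsMeagre.mono ?_ (isMeagre_NM hK u)
    rintro x ⟨S, hS, hxS⟩
    obtain ⟨ζ, hζ⟩ : ∃ ζ, e ζ = ⟨S, hS⟩ := e.surjective _
    obtain ⟨η, h1, h2⟩ := hcon ζ
    have h3 : ¬ IsMeagre ((↑) ⁻¹' (NM K u) : Set (CL (P η) (w η))) := by
      intro h4
      exact h2 (IsMeagre.mono (preimage_mono hu) h4)
    apply key (hP η) h3
    apply hw η
    rw [mem_iUnion₂]
    refine ⟨ζ, h1, ?_⟩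
    rw [hζ]
    exact hxS
  obtain ⟨γ, hγ, hγ2⟩ := hC Cant κ.ord.ToType MeagerSets sigmaIdeal_meager
    (fun η => JJ (P η) (w η)) (fun η => sigmaIdeal_JJ _ _)
    (fun η h => CL_not_mem (P η) (w η) (h (IsMeagre.mono (CL_subset_NM _ _) (isMeagre_NM (hP η) _))))
    hlarge
  rw [Ordinal.type_toType] at hγ2
  apply le_antisymm
  · exact (csInf_le' hγ).trans hγ2
  · exact hA Cant MeagerSets sigmaIdeal_meager _ (csInf_mem ⟨γ, hγ⟩)

end Pool.Agent.W924.CF
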