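import Pool.Agent.W924.CF.Mea
import Pool.Agent.H31R3.YorNull

/-!
# The null ideal as an increasing union of proper sigma-ideals
-/

set_option autoImplicit false

namespace Pool.Agent.W924.CF

open Classical Set Filter MeasureTheory
open scoped ENNReal
open Pool.Agent.W684.CF

instance : IsProbabilityMeasure coin := ⟨by simp [coin, ENNReal.inv_two_add_inv_two]⟩
instance : IsProbabilityMeasure mu := by unfold mu; infer_instance

/-- depends only on the coordinates below `k` -/
def Dep (k : ℕ) (W : Set Cant) : Prop := ∀ x y : Cant, (∀ i < k, x i = y i) → x ∈ W → y ∈ W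

lemma Dep.mono {k l : ℕ} {W : Set Cant} (h : Dep k W) (hkl : k ≤ l) : Dep l W :=
  fun x y hxy hx => h x y (fun i hi => hxy i (hi.trans_le hkl)) hx

lemma Dep.isOpen {k : ℕ} {W : Set Cant} (h : Dep k W) : IsOpen W := by
  rw [isOpen_iff_forall_mem_open]
  intro x hx
  exact ⟨{y | ∀ i < k, y i = x i}, fun y hy => h x y (fun i hi => (hy i hi).symm) hx,
    isOpen_cyl x k, fun _ _ => rfl⟩

lemma Dep.meas {k : ℕ} {W : Set Cant} (h : Dep k W) : MeasurableSet W := h.isOpen.measurableSet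

lemma dep_of_clopen {U : Set Cant} (hU : IsClopen U) : ∃ k, Dep k U := by
  have h1 : ∀ x ∈ U, ∃ k, ∀ y : Cant, (∀ i < k, y i = x i) → y ∈ U :=
    fun x hx => exists_cyl hU.2 hx
  let kk : Cant → ℕ := fun x => if h : x ∈ U then (h1 x h).choose else 0
  have hkk : ∀ x ∈ U, ∀ y : Cant, (∀ i < kk x, y i = x i) → y ∈ U := by
    intro x hx y hy
    simp only [kk, dif_pos hx] at hy
    exact (h1 x hx).choose_spec y hy
  obtain ⟨t, ht1, ht2⟩ := hU.1.isCompact.elim_nhds_subcover (fun x => {y | ∀ i < kk x, y i = x i})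
    (fun x _ => (isOpen_cyl x (kk x)).mem_nhds fun _ _ => rfl)
  refine ⟨t.sup kk, fun x y hxy hx => ?_⟩
  have h2 := ht2 hx
  rw [mem_iUnion₂] at h2
  obtain ⟨s, hs, hxs⟩ := h2
  apply hkk s (ht1 s hs)
  intro i hi
  rw [← hxy i (hi.trans_le (Finset.le_sup (f := kk) hs))]
  exact hxs i hi

/-- the sigma-ideals -/
def JF (f : ℕ → ℕ) : Set (Set Cant) :=
  {A | ∃ W : ℕ → Set Cant, (∀ n, Dep (f n) (W n)) ∧ ∑' n, 2 ^ n * mu (W n) ≠ ∞ ∧
    A ⊆ {x | ∃ᶠ n in atTop, x ∈ W n}}

lemma dep_ite {p : Prop} [Decidable p] {k : ℕ} {W : Set Cant} (h : Dep k W) : Dep k (if p then W else ∅) := by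
  split_ifs
  · exact h
  · exact fun x y _ hx => hx

lemma JF_mono {f g : ℕ → ℕ} (h : ∃ N, ∀ n, N ≤ n → f n ≤ g n) : JF f ⊆ JF g := by
  obtain ⟨N, hN⟩ := h
  rintro A ⟨W, h1, h2, h3⟩
  refine ⟨fun n => if N ≤ n then W n else ∅, fun n => ?_, ?_, fun x hx => ?_⟩
  · by_cases hn : N ≤ n
    · simp only [if_pos hn]
      exact (h1 n).mono (hN n hn)
    · simp only [if_neg hn]
      exact fun x y _ hx => hx
  · refine ne_top_of_le_ne_top h2 (ENNReal.tsum_le_tsum fun n => ?_)
    gcongr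
    dsimp only
    split_ifs
    · exact subset_rfl
    · exact empty_subset _
  · have h4 : ∃ᶠ n in atTop, x ∈ W n := h3 hx
    refine (h4.and_eventually (eventually_ge_atTop N)).mono fun n hn => ?_
    show x ∈ (if N ≤ n then W n else ∅)
    rw [if_pos hn.2]
    exact hn.1

lemma tsum_ite_ge (g : ℕ → ℝ≥0∞) (N : ℕ) :
    ∑' n, (if N ≤ n then g n else 0) = ∑' n, g (n + N) := by
  rw [← Summable.sum_add_tsum_nat_add' (k := N) ENNReal.summable]
  rw [Finset.sum_eq_zero, zero_add]
  · congr 1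
    funext n
    rw [if_pos (Nat.le_add_left N n)]
  · intro n hn
    rw [Finset.mem_range] at hn
    rw [if_neg (not_le.2 hn)]

lemma sigmaIdeal_JF (f : ℕ → ℕ) : SigmaIdeal (JF f) := by
  refine ⟨⟨fun _ => ∅, fun n x y _ hx => hx, by simp, empty_subset _⟩, ?_, ?_⟩
  · rintro A ⟨W, h1, h2, h3⟩ B hB
    exact ⟨W, h1, h2, hB.trans h3⟩
  · intro A hA
    choose W h1 h2 h3 using hA
    have h4 : ∀ k, ∃ N, ∑' n, 2 ^ (n + N) * mu (W k (n + N)) ≤ (2⁻¹ : ℝ≥0∞) ^ k := by
      intro k
      have ht := ENNReal.tendsto_sum_nat_add (fun n => 2 ^ n * mu (W k n)) (h2 k)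
      have h5 : (0 : ℝ≥0∞) < (2⁻¹ : ℝ≥0∞) ^ k := ENNReal.pow_pos (by simp) k
      obtain ⟨N, hN⟩ := (ht.eventually (gt_mem_nhds h5)).exists
      exact ⟨N, hN.le⟩
    choose N hN using h4
    refine ⟨fun n => ⋃ k, if N k ≤ n then W k n else ∅, ?_, ?_, ?_⟩
    · intro n x y hxy hx
      rw [mem_iUnion] at hx ⊢
      obtain ⟨k, hk⟩ := hx
      exact ⟨k, dep_ite (h1 k n) x y hxy hk⟩
    · have h5 : ∑' n, 2 ^ n * mu (⋃ k, if N k ≤ n then W k n else ∅) ≤
          ∑' n, ∑' k, (if N k ≤ n then 2 ^ n * mu (W k n) else 0) := by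
        refine ENNReal.tsum_le_tsum fun n => ?_
        refine (mul_le_mul_right (measure_iUnion_le _) _).trans ?_
        rw [← ENNReal.tsum_mul_left]
        refine ENNReal.tsum_le_tsum fun k => ?_
        split_ifs
        · exact le_rfl
        · simp
      have h6 : ∑' n, ∑' k, (if N k ≤ n then 2 ^ n * mu (W k n) else 0) ≤ ∑' k : ℕ, (2⁻¹ : ℝ≥0∞) ^ k := by
        rw [ENNReal.tsum_comm]
        refine ENNReal.tsum_le_tsum fun k => ?_
        rw [tsum_ite_ge (fun n => 2 ^ n * mu (W k n)) (N k)]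
        exact hN k
      refine ne_top_of_le_ne_top ?_ (h5.trans h6)
      rw [ENNReal.tsum_geometric, ENNReal.one_sub_inv_two, inv_inv]
      exact ENNReal.ofNat_ne_top
    · intro x hx
      rw [mem_iUnion] at hx
      obtain ⟨k, hk⟩ := hx
      have h5 : ∃ᶠ n in atTop, x ∈ W k n := h3 k hk
      refine (h5.and_eventually (eventually_ge_atTop (N k))).mono fun n hn => ?_
      rw [mem_iUnion]
      exact ⟨k, by rw [if_pos hn.2]; exact hn.1⟩

lemma JF_null (f : ℕ → ℕ) : JF f ⊆ NullSets := by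
  rintro A ⟨W, -, h2, h3⟩
  refine measure_mono_null h3 (measure_setOfPred_frequently_eq_zero ?_)
  refine ne_top_of_le_ne_top h2 (ENNReal.tsum_le_tsum fun n => ?_)
  have h4 : (1 : ℝ≥0∞) ≤ 2 ^ n := one_le_pow₀ (by norm_num)
  calc mu {x | x ∈ W n} = 1 * mu (W n) := by rw [one_mul]; rfl
    _ ≤ 2 ^ n * mu (W n) := mul_le_mul_left h4 _

lemma exists_JF {A : Set Cant} (hA : A ∈ NullSets) : ∃ f, A ∈ JF f := by
  obtain ⟨E, hE1, hE2, hE3⟩ : ∃ E : ℕ → Set Cant, (∀ n, IsClopen (E n)) ∧
      ∑' n, mu (E n) ≠ ∞ ∧ ∀ z ∈ A, ∃ᶠ n in atTop, z ∈ E n :=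
    Pool.Agent.H31R3.Yor.null_seq (A := A) hA
  have ht := ENNReal.tendsto_sum_nat_add (fun n => mu (E n)) hE2
  have hex : ∀ i N : ℕ, ∃ n > N, ∑' k, mu (E (k + n)) ≤ (4⁻¹ : ℝ≥0∞) ^ i := by
    intro i N
    have h4 : (0 : ℝ≥0∞) < (4⁻¹ : ℝ≥0∞) ^ i := ENNReal.pow_pos (by simp) i
    have := (ht.eventually (gt_mem_nhds h4)).and (eventually_gt_atTop N)
    obtain ⟨n, hn1, hn2⟩ := this.exists
    exact ⟨n, hn2, hn1.le⟩
  choose nn hnn1 hnn2 using hex
  let t : ℕ → ℕ := fun i => Nat.rec (nn 0 0) (fun i s => nn (i + 1) s) i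
  have ht1 : ∀ i, t i < t (i + 1) := fun i => hnn1 (i + 1) (t i)
  have ht2 : ∀ i, ∑' k, mu (E (k + t i)) ≤ (4⁻¹ : ℝ≥0∞) ^ i := by
    intro i
    cases i with
    | zero => exact hnn2 0 0
    | succ i => exact hnn2 (i + 1) (t i)
  have htm : StrictMono t := strictMono_nat_of_lt_succ ht1
  let B : ℕ → Set Cant := fun i => ⋃ k ∈ Finset.Ico (t i) (t (i + 1)), E k
  have hB1 : ∀ i, IsClopen (B i) := fun i => isClopen_biUnion_finset fun k _ => hE1 k
  have hB2 : ∀ i, mu (B i) ≤ (4⁻¹ : ℝ≥0∞) ^ i := by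
    intro i
    refine le_trans ?_ (ht2 i)
    refine (measure_biUnion_finset_le _ _).trans ?_
    have e1 : ∑ k ∈ Finset.Ico (t i) (t (i + 1)), mu (E k) =
        ∑ k ∈ Finset.range (t (i + 1) - t i), mu (E (k + t i)) := by
      rw [Finset.sum_Ico_eq_sum_range]
      exact Finset.sum_congr rfl fun k _ => by rw [add_comm]
    rw [e1]
    exact ENNReal.sum_le_tsum _
  choose f hf using fun i => dep_of_clopen (hB1 i)
  refine ⟨f, B, hf, ?_, ?_⟩
  · have h1 : ∀ n, 2 ^ n * mu (B n) ≤ (2⁻¹ : ℝ≥0∞) ^ n := by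
      intro n
      refine (mul_le_mul_right (hB2 n) _).trans ?_
      rw [show (4⁻¹ : ℝ≥0∞) = 2⁻¹ * 2⁻¹ by
        rw [← ENNReal.mul_inv (by simp) (by simp)]; norm_num]
      rw [mul_pow, ← mul_assoc, ← mul_pow, ENNReal.mul_inv_cancel (by simp) (by simp), one_pow,
        one_mul]
    refine ne_top_of_le_ne_top ?_ (ENNReal.tsum_le_tsum h1)
    rw [ENNReal.tsum_geometric, ENNReal.one_sub_inv_two, inv_inv]
    exact ENNReal.ofNat_ne_top
  · intro z hz
    rw [mem_ofPred_eq, frequently_atTop]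
    intro N
    obtain ⟨k, hk, hzk⟩ := (frequently_atTop.1 (hE3 z hz)) (t N)
    have hexi : ∃ i, k < t (i + 1) := ⟨k, by
      have : k + 1 ≤ t (k + 1) := htm.le_apply
      omega⟩
    obtain ⟨i, hi1, hi2⟩ : ∃ i, t i ≤ k ∧ k < t (i + 1) := by
      refine ⟨Nat.find hexi, ?_, Nat.find_spec hexi⟩
      by_contra hcon
      push Not at hcon
      rcases Nat.eq_zero_or_pos (Nat.find hexi) with h0 | h0
      · rw [h0] at hcon
        have : t 0 ≤ t N := htm.monotone (Nat.zero_le N)
        omega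
      · have := Nat.find_min hexi (m := Nat.find hexi - 1) (by omega)
        apply this
        rwa [show Nat.find hexi - 1 + 1 = Nat.find hexi by omega]
    refine ⟨i, ?_, ?_⟩
    · by_contra hcon
      have hcon' : i + 1 ≤ N := by omega
      have : t (i + 1) ≤ t N := htm.monotone hcon'
      omega
    · exact mem_biUnion (Finset.mem_coe.2 (Finset.mem_Ico.2 ⟨hi1, hi2⟩)) hzk

/-- flip the coordinates in `s` -/
def flip (s : Finset ℕ) (x : Cant) : Cant := fun i => if i ∈ s then !(x i) else x i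

lemma coin_not : Measure.map Bool.not coin = coin := by
  unfold coin
  rw [Measure.map_add _ _ (measurable_of_finite _), Measure.map_smul, Measure.map_smul,
    Measure.map_dirac' (measurable_of_finite _), Measure.map_dirac' (measurable_of_finite _)]
  simp only [Bool.not_false, Bool.not_true]
  rw [add_comm]

lemma mp_flip (s : Finset ℕ) : MeasurePreserving (flip s) mu mu := by
  refine ⟨?_, ?_⟩
  · apply measurable_pi_lambda
    intro i
    unfold flip
    split_ifs
    · exact (measurable_of_finite Bool.not).comp (measurable_pi_apply i)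
    · exact measurable_pi_apply i
  · have h1 : flip s = fun x : Cant => fun i => (fun i : ℕ => if i ∈ s then Bool.not else id) i (x i) := by
      funext x i
      unfold flip
      dsimp only
      split_ifs <;> rfl
    unfold mu
    rw [h1, Measure.infinitePi_map_pi]
    · congr 1
      funext i
      split_ifs
      · exact coin_not
      · exact Measure.map_id
    · intro i
      exact measurable_of_finite _

lemma mu_zero_block (a m : ℕ) : mu {x : Cant | ∀ i < m, x (a + i) = false} = (2⁻¹ : ℝ≥0∞) ^ m := by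
  have h1 : {x : Cant | ∀ i < m, x (a + i) = false} =
      Set.pi (Finset.Ico a (a + m)) (fun _ => ({false} : Set Bool)) := by
    ext z
    simp only [mem_ofPred_eq, Set.mem_pi, mem_singleton_iff, Finset.mem_coe, Finset.mem_Ico]
    constructor
    · intro h i hi
      have := h (i - a) (by omega)
      rwa [show a + (i - a) = i by omega] at this
    · intro h i hi
      exact h (a + i) ⟨by omega, by omega⟩
  rw [h1, mu, Measure.infinitePi_pi _ (fun i _ => MeasurableSet.singleton _)]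
  have h2 : coin {false} = 2⁻¹ := by simp [coin]
  simp only [h2, Finset.prod_const, Nat.card_Ico]
  congr 1
  omega

lemma JF_proper (f : ℕ → ℕ) : ¬ NullSets ⊆ JF f := by
  intro hsub
  let g : ℕ → ℕ := fun n => (Finset.range (n + 1)).sup f
  have hg : Monotone g := by
    intro m n hmn
    exact Finset.sup_mono (Finset.range_mono (by omega))
  have hfg : JF f ⊆ JF g := JF_mono ⟨0, fun n _ => Finset.le_sup (f := f) (by simp)⟩
  let F : ℕ → ℕ := fun m => g (4 * m)
  let H : Set Cant := {x | ∃ᶠ m in atTop, ∀ i < m, x (F m + i) = false}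
  have hH : H ∈ NullSets := by
    refine measure_setOfPred_frequently_eq_zero ?_
    simp only [mu_zero_block]
    rw [ENNReal.tsum_geometric, ENNReal.one_sub_inv_two, inv_inv]
    exact ENNReal.ofNat_ne_top
  obtain ⟨W, hW1, hW2, hW3⟩ := hfg (hsub hH)
  let Z : ℕ → Prop := fun n => ∃ j i, i < 2 ^ j ∧ n = F (2 ^ j) + i
  let φ : Cant → Cant := fun x n => if Z n then false else x n
  have hφH : ∀ x, φ x ∈ H := by
    intro x
    show ∃ᶠ m in atTop, ∀ i < m, φ x (F m + i) = false
    rw [frequently_atTop]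
    intro N
    refine ⟨2 ^ N, Nat.lt_two_pow_self.le, fun i hi => ?_⟩
    exact if_pos ⟨N, i, hi, rfl⟩
  -- few coordinates
  let Zn : ℕ → Finset ℕ := fun n => (Finset.range (g n)).filter Z
  have hZn : ∀ n, (Zn n).card ≤ n := by
    intro n
    have h1 : Zn n ⊆ ((Finset.range (Nat.log 2 n)).sigma fun j => Finset.range (2 ^ j)).image
        (fun q : (_ : ℕ) × ℕ => F (2 ^ q.1) + q.2) := by
      intro k hk
      rw [Finset.mem_filter, Finset.mem_range] at hk
      obtain ⟨hk1, j, i, hi, rfl⟩ := hk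
      rw [Finset.mem_image]
      refine ⟨⟨j, i⟩, ?_, rfl⟩
      rw [Finset.mem_sigma, Finset.mem_range, Finset.mem_range]
      refine ⟨?_, hi⟩
      show j < Nat.log 2 n
      have h2 : g (4 * 2 ^ j) < g n := lt_of_le_of_lt (Nat.le_add_right _ _) hk1
      have h3 : 4 * 2 ^ j < n := by
        by_contra hcon
        exact absurd (hg (not_lt.1 hcon)) (not_le.2 h2)
      have h4 : 2 ^ (j + 1) ≤ n := by
        rw [pow_succ]; omega
      have h5 : j + 1 ≤ Nat.log 2 n := Nat.le_log_of_pow_le (by norm_num) h4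
      omega
    refine (Finset.card_le_card h1).trans (Finset.card_image_le.trans ?_)
    rw [Finset.card_sigma]
    simp only [Finset.card_range]
    rcases Nat.eq_zero_or_pos n with rfl | hn
    · simp
    · have h2 : ∑ j ∈ Finset.range (Nat.log 2 n), 2 ^ j < 2 ^ Nat.log 2 n :=
        Nat.geomSum_lt (m := 2) le_rfl (by simp)
      have h3 : 2 ^ Nat.log 2 n ≤ n := Nat.pow_log_le_self 2 hn.ne'
      omega
  have hpre : ∀ n, mu {x | φ x ∈ W n} ≤ 2 ^ n * mu (W n) := by
    intro n
    have h1 : {x | φ x ∈ W n} ⊆ ⋃ s ∈ (Zn n).powerset, flip s ⁻¹' W n := by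
      intro x hx
      rw [mem_iUnion₂]
      refine ⟨(Zn n).filter fun i => x i = true, Finset.mem_powerset.2 (Finset.filter_subset _ _), ?_⟩
      refine hW1 n (φ x) _ (fun i hi => ?_) hx
      by_cases hZ : Z i
      · have h2 : φ x i = false := if_pos hZ
        have h3 : i ∈ Zn n := Finset.mem_filter.2 ⟨Finset.mem_range.2 hi, hZ⟩
        rw [h2]
        unfold flip
        by_cases hx : x i = true
        · rw [if_pos (Finset.mem_filter.2 ⟨h3, hx⟩), hx]; rfl
        · have h4 : i ∉ (Zn n).filter fun i => x i = true := fun h => hx (Finset.mem_filter.1 h).2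
          rw [if_neg h4]
          simpa using hx
      · have h2 : φ x i = x i := if_neg hZ
        have h3 : i ∉ (Zn n).filter fun i => x i = true := fun h =>
          hZ (Finset.mem_filter.1 (Finset.mem_filter.1 h).1).2
        rw [h2]
        unfold flip
        rw [if_neg h3]
    refine (measure_mono h1).trans ((measure_biUnion_finset_le _ _).trans ?_)
    have h2 : ∀ s ∈ (Zn n).powerset, mu (flip s ⁻¹' W n) ≤ mu (W n) := fun s _ =>
      ((mp_flip s).measure_preimage (hW1 n).meas.nullMeasurableSet).le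
    refine (Finset.sum_le_card_nsmul _ _ _ h2).trans ?_
    rw [nsmul_eq_mul, Finset.card_powerset]
    gcongr
    push_cast
    exact pow_le_pow_right₀ (by norm_num) (hZn n)
  have h1 : mu {x | ∃ᶠ n in atTop, φ x ∈ W n} = 0 :=
    measure_setOfPred_frequently_eq_zero (ne_top_of_le_ne_top hW2 (ENNReal.tsum_le_tsum hpre))
  have h2 : {x | ∃ᶠ n in atTop, φ x ∈ W n} = univ := by
    ext x
    simp only [mem_ofPred_eq, mem_univ, iff_true]
    exact hW3 (hφH x)
  rw [h2, measure_univ] at h1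
  exact one_ne_zero h1

theorem modulus : S_MOD :=
  ⟨JF, fun f => ⟨sigmaIdeal_JF f, JF_null f, JF_proper f⟩, fun _ _ h => JF_mono h,
    fun _ hA => exists_JF hA⟩

end Pool.Agent.W924.CF
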