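import Pool.Agent.W924.CF.Part

/-!
# `NotCaptured` is forced
-/

set_option autoImplicit false
set_option linter.unusedSectionVars false

namespace Pool.Agent.W924.CF

open Classical Pool.Agent.Helper669.Forcing
open Pool.Agent.W684.CF

theorem notCaptured (hE : S_EXT) : S_NC := by
  intro M I W rs _ _ _ Γ hG hL L M' lc hinj hrk hF p
  let y : L → ℕ → ℕ → Set (PP Γ) := fun l n b =>
    {r | n < (PP.toC r (lc l)).stem.length ∧ ((PP.toC r (lc l)).stem.getD n ∅).card = b}
  refine mem_fex.2 fun p1 hp1 => ⟨p1, le_rfl, y, ?_, ?_⟩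
  · -- functions
    intro l
    refine ⟨fun n => ?_, fun n v v' => ?_⟩
    · refine mem_fex.2 fun r hr => ?_
      obtain ⟨r', hr', hlen, -⟩ := hE M I W rs Γ hG (lc l) (n + 1) (PP.toC r)
      refine ⟨(r' : PP Γ), hr', ((r' (lc l)).stem.getD n ∅).card, ?_⟩
      exact meets_of_mem (P := PP Γ) (N := y l n _) (p := r') ⟨hlen, rfl⟩
    · refine mem_fimp.2 fun r hr h => ⟨r, le_rfl, ?_⟩
      obtain ⟨s, hs, z, hz, hsz⟩ := h.1 r le_rfl
      obtain ⟨s', hs', z', hz', hsz'⟩ := h.2 s hs
      have h1 : le Γ Set.univ (PP.toC s') (PP.toC z) := hs'.trans hsz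
      have h2 : le Γ Set.univ (PP.toC s') (PP.toC z') := hsz'
      show v = v'
      rw [← hz.2, ← hz'.2, getD_eq_of_common h1 h2 hz.1 hz'.1]
  · intro S
    refine mem_fimp.2 fun q hq hS => ⟨q, le_rfl, ?_⟩
    refine mem_fex.2 fun r hr => ?_
    by_contra hcon
    -- for each `l` a bad pair and a condition
    have hbad : ∀ l : L, ∃ (i : M') (N : ℕ) (s : PP Γ), s ≤ r ∧ ∀ s' ≤ s, ∀ n, N ≤ n → ∀ v,
        s' ∈ meets (y l n v) → ∃ s'' ≤ s', s'' ∈ meets (S i n v) := by
      intro l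
      have h1 : ¬ (r ∈ fall fun i => fall fun N => fex fun n => fand (fground (N ≤ n))
        (fex fun v => fand (meets (y l n v)) (fnot (meets (S i n v))))) :=
        fun h => hcon ⟨r, le_rfl, l, h⟩
      simp only [mem_fall, not_forall] at h1
      obtain ⟨i, N, h1⟩ := h1
      rw [mem_fex] at h1
      push Not at h1
      obtain ⟨s, hs, h2⟩ := h1
      refine ⟨i, N, s, hs, fun s' hs' n hn v hv => ?_⟩
      by_contra hno
      push Not at hno
      apply h2 s' hs' n
      refine ⟨hn, mem_fex.2 fun u hu => ⟨u, le_rfl, v, down_meets _ _ hv _ hu, ?_⟩⟩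
      intro w hw hm
      exact hno w (hw.trans hu) hm
    choose i N s hs hs2 using hbad
    obtain ⟨⟨i0, N0⟩, hunc⟩ := hF fun l => (i l, N l)
    obtain ⟨n, hn, q', Z, hZA, hZc, hZle, hZlen, hZinj⟩ := hL L _ hunc (fun l => PP.toC (s l)) lc
      (fun a _ => hrk a) (hinj.injOn) N0 (fun n => 2 ^ (3 * n))
    let v : L → ℕ := fun a => ((q' (lc a)).stem.getD n ∅).card
    have hstep : ∀ Z' : Finset L, Z' ⊆ Z → ∃ q2 : PP Γ, (@LE.le (PP Γ) _ q2 q') ∧
        ∀ a ∈ Z', q2 ∈ meets (S i0 n (v a)) := by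
      intro Z'
      induction Z' using Finset.induction_on with
      | empty => exact fun _ => ⟨q', le_refl' _ _, fun a ha => absurd ha (Finset.notMem_empty _)⟩
      | insert a Z' _ ih =>
        intro hsub
        obtain ⟨q2, h1, h2⟩ := ih ((Finset.subset_insert _ _).trans hsub)
        have haZ : a ∈ Z := hsub (Finset.mem_insert_self _ _)
        have haA : (i a, N a) = (i0, N0) := hZA haZ
        have hia : i a = i0 := (Prod.mk.inj haA).1
        have hNa : N a = N0 := (Prod.mk.inj haA).2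
        have h3 : (@LE.le (PP Γ) _ q' (s a)) := hZle a haZ
        have h4 : (q' : PP Γ) ∈ meets (y a n (v a)) :=
          meets_of_mem (P := PP Γ) (N := y a n (v a)) (p := q') ⟨hZlen a haZ, rfl⟩
        have h13 : (@LE.le (PP Γ) _ q2 (s a)) := le_trans' low_univ h1 h3
        obtain ⟨q3, h5, h6⟩ := hs2 a q2 h13 n (by rw [hNa]; exact hn) (v a)
          (down_meets (P := PP Γ) _ _ h4 _ h1)
        rw [hia] at h6
        refine ⟨q3, le_trans' low_univ h5 h1, fun b hb => ?_⟩
        rcases Finset.mem_insert.1 hb with rfl | hb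
        · exact h6
        · exact down_meets _ _ (h2 b hb) _ h5
    obtain ⟨q2, hq2, hq2S⟩ := hstep Z Finset.Subset.rfl
    have hcard : 2 ^ (3 * n) < (Z.image v).card := by
      rw [Finset.card_image_of_injOn]
      · exact hZc
      · intro a ha b hb hab
        by_contra hne
        exact hZinj a ha b hb hne hab
    have hZne : Z.Nonempty := by
      rw [← Finset.card_pos]
      exact lt_of_le_of_lt (Nat.zero_le _) hZc
    obtain ⟨a0, ha0⟩ := hZne
    have hq'r : (@LE.le (PP Γ) _ q' r) := le_trans' low_univ (hZle a0 ha0) (hs a0)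
    have hq2q : q2 ≤ q := le_trans' low_univ (le_trans' low_univ hq2 hq'r) hr
    obtain ⟨r4, hr4, h4⟩ := mem_fimp.1 (hS i0 n (Z.image v)) q2 hq2q hcard
    obtain ⟨r5, hr5, v0, hv0, h5⟩ := mem_fex.1 h4 r4 le_rfl
    obtain ⟨a, ha, hav⟩ := Finset.mem_image.1 hv0
    apply h5 r5 le_rfl
    rw [← hav]
    exact down_meets _ _ (hq2S a ha) _ (hr5.trans hr4)

end Pool.Agent.W924.CF
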