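import Pool.Agent.W684.CF.Frame

/-!
# Partial capturing is forced
-/

set_option autoImplicit false
set_option linter.unusedSectionVars false

namespace Pool.Agent.W924.CF

open Classical Pool.Agent.Helper669.Forcing
open Pool.Agent.W684.CF

section

variable {M I W : Type} {rs : I → Prop} [LinearOrder W] [WellFoundedLT W] {Γ : Par M W rs}

theorem getD_eq_of_common {a b c : Cond M rs} {j : I} {n : ℕ} (h1 : le Γ Set.univ c a)
    (h2 : le Γ Set.univ c b) (ha : n < (a j).stem.length) (hb : n < (b j).stem.length) :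
    (a j).stem.getD n ∅ = (b j).stem.getD n ∅ := by
  rw [← getD_prefix (ext_stem (h1 j (Set.mem_univ _))) ha,
    ← getD_prefix (ext_stem (h2 j (Set.mem_univ _))) hb]

theorem length_le {a c : Cond M rs} (j : I) (h : le Γ Set.univ c a) :
    (a j).stem.length ≤ (c j).stem.length := (ext_stem (h j (Set.mem_univ _))).length_le

end

theorem partlyCaptured (hE : S_EXT) (hF : S_RAWF) (hB : S_RAWB) : S_PART := by
  intro M I W rs _ _ _ Γ hG hccc K C cc hreq p
  let d : C → ℕ → Set (PP Γ) := fun c n =>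
    {r | n < (PP.toC r (cc c)).stem.length ∧ (PP.toC r (cc c)).stem.getD n ∅ ≠ ∅}
  refine mem_fex.2 fun p1 hp1 => ⟨p1, le_rfl, d, ?_⟩
  intro x
  refine mem_fimp.2 fun p2 hp2 hx => ⟨p2, le_rfl, ?_⟩
  intro E
  refine mem_fex.2 fun q hq => ⟨q, le_rfl, ?_⟩
  have hxq : ∀ k, q ∈ IsFun (x k) := fun k => down_IsFun (x k) _ (hx k) _ hq
  choose X hX using fun k => hF M I W rs Γ hccc (x k) q (hxq k)
  choose e he using fun (k : K) (c : C) => hB M I W rs Γ hccc (E k c)
  obtain ⟨j, hj⟩ := hreq X e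
  by_cases hK : Nonempty K
  swap
  · refine ⟨fun _ _ => ∅, ?_, fun k => absurd ⟨k⟩ hK⟩
    intro n t
    refine mem_fimp.2 fun r hr hn => ⟨r, le_rfl, ?_⟩
    have hn' : n < t.card := hn
    obtain ⟨v, hv⟩ : t.Nonempty := by
      rw [← Finset.card_pos]; omega
    refine mem_fex.2 fun s hs => ⟨s, le_rfl, v, hv, ?_⟩
    intro u hu hm
    obtain ⟨w, _, z, hz, _⟩ := hm u le_rfl
    exact hz
  obtain ⟨k0⟩ := hK
  obtain ⟨m0, c0, hm0⟩ := hj k0
  have hrs : rs j := (hG.part j m0 _ _ _ hm0).1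
  refine ⟨fun n v => {r | n < (PP.toC r j).stem.length ∧ v ∈ (PP.toC r j).stem.getD n ∅}, ?_, ?_⟩
  · -- a slalom
    intro n t
    refine mem_fimp.2 fun r hr hn => ⟨r, le_rfl, ?_⟩
    have hn' : n < t.card := hn
    refine mem_fex.2 fun s hs => ?_
    obtain ⟨s', hs', hlen, -⟩ := hE M I W rs Γ hG j (n + 1) (PP.toC s)
    have hcard : ((s' j).stem.getD n ∅).card ≤ n := (s'.legit hrs).2 n (by omega)
    obtain ⟨v, hv, hv'⟩ := Finset.exists_mem_notMem_of_card_lt_card (hcard.trans_lt hn')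
    refine ⟨(s' : PP Γ), hs', v, hv, ?_⟩
    intro u hu hm
    obtain ⟨w, hw, z, hz, hwz⟩ := hm u le_rfl
    apply hv'
    have h1 : le Γ Set.univ (PP.toC w) s' := hw.trans hu
    have h2 : le Γ Set.univ (PP.toC w) (PP.toC z) := hwz
    rw [getD_eq_of_common h1 h2 (by omega) hz.1]
    exact hz.2
  · -- capturing
    intro k
    obtain ⟨m, c, hmc⟩ := hj k
    obtain ⟨-, -, -, -, -, hs1, hs2⟩ := hG.part j m _ _ _ hmc
    refine mem_fex.2 fun r hr => ?_
    obtain ⟨r', hr', hlen, hpr⟩ := hE M I W rs Γ hG j ((PP.toC r j).pr.card + 1) (PP.toC r)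
    have hleg : Legit (M := M) ⟨(r' j).stem, insert m (r' j).pr⟩ := by
      refine ⟨?_, (r'.legit hrs).2⟩
      refine (Finset.card_insert_le _ _).trans ?_
      rw [hpr]
      exact hlen
    let r1 : Cond M rs := upd r' j ⟨(r' j).stem, insert m (r' j).pr⟩ fun _ => hleg
    have hr1j : r1 j = ⟨(r' j).stem, insert m (r' j).pr⟩ := upd_same _ _ _ _
    have hr1 : le Γ Set.univ r1 r' := by
      intro i _
      by_cases hi : i = j
      · subst hi
        exact ext_same_stem (by rw [hr1j]) (by rw [hr1j]; exact Finset.subset_insert _ _)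
      · exact ext_of_eq (upd_of_ne _ _ _ hi)
    have hr1r : (@LE.le (PP Γ) _ r1 r) := le_trans' low_univ hr1 hr'
    refine ⟨r1, hr1r, c, ?_⟩
    refine mem_fex.2 fun R hR => ⟨R, le_rfl, (PP.toC R j).stem.length, ?_⟩
    have hRm : m ∈ (PP.toC R j).pr := by
      have h1 : ext Γ j (PP.toC R) r1 := hR j (Set.mem_univ _)
      apply ext_pr h1
      rw [hr1j]
      exact Finset.mem_insert_self _ _
    intro n
    refine mem_fimp.2 fun R2 hR2 hn => ⟨R2, le_rfl, ?_⟩
    have hn' : (PP.toC R j).stem.length ≤ n := hn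
    refine mem_fimp.2 fun R3 hR3 hiff => ?_
    -- extend
    obtain ⟨a1, ha1, hl1, -⟩ := hE M I W rs Γ hG j (n + 1) (PP.toC R3)
    obtain ⟨a2, ha2, hl2, -⟩ := hE M I W rs Γ hG (cc c) (n + 1) a1
    obtain ⟨a3, ha3, e0, he0⟩ := Val.dense (Γ := Γ) low_univ a2 (e k c) 0
    obtain ⟨a4, ha4, v, hv⟩ := Val.dense (Γ := Γ) low_univ a3 (X k) n
    have h42 : le Γ Set.univ a4 a2 := le_trans' low_univ ha4 ha3
    have h41 : le Γ Set.univ a4 a1 := le_trans' low_univ h42 ha2
    have h4R3 : (@LE.le (PP Γ) _ a4 R3) := le_trans' low_univ h41 ha1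
    have h4R : (@LE.le (PP Γ) _ a4 R) := h4R3.trans (hR3.trans hR2)
    have h4q : (@LE.le (PP Γ) _ a4 q) := h4R.trans (hR.trans (hr1r.trans hr))
    have he4 : Val (le Γ Set.univ) a4 (e k c) 0 e0 := he0.mono low_univ ha4
    have hlj : n < (a4 j).stem.length := lt_of_lt_of_le hl1 (length_le j h41)
    have hlc : n < (a4 (cc c)).stem.length := lt_of_lt_of_le hl2 (length_le (cc c) h42)
    have hiff4 : (a4 : PP Γ) ∈ fiff (meets (d c n)) (meets (E k c)) :=
      down_fand (down_fimp _ _) (down_fimp _ _) _ hiff _ h4R3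
    have key : (a4 (cc c)).stem.getD n ∅ = ∅ ↔ e0 = 0 := by
      constructor
      · intro h
        by_contra hne
        have h1 : (a4 : PP Γ) ∈ meets (E k c) := (he k c a4 e0 he4).2 hne
        obtain ⟨b, hb, hb2⟩ := mem_fimp.1 hiff4.2 a4 le_rfl h1
        obtain ⟨b', hb', z, hz, hbz⟩ := hb2 b le_rfl
        apply hz.2
        have h2 : le Γ Set.univ (PP.toC b') a4 := hb'.trans hb
        have h3 : le Γ Set.univ (PP.toC b') (PP.toC z) := hbz
        rw [getD_eq_of_common h3 h2 hz.1 hlc]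
        exact h
      · intro h
        by_contra hne
        have h1 : (a4 : PP Γ) ∈ meets (d c n) :=
          meets_of_mem (P := PP Γ) (N := d c n) (p := a4) ⟨hlc, hne⟩
        obtain ⟨b, hb, hb2⟩ := mem_fimp.1 hiff4.1 a4 le_rfl h1
        exact (he k c a4 e0 he4).1 h b hb hb2
    have hmem : v ∈ (a4 j).stem.getD n ∅ := by
      have h1 : ext Γ j a4 (PP.toC R) := h4R j (Set.mem_univ _)
      rw [ext_iff] at h1
      refine h1.2.2 m hRm _ _ hmc n hn' hlj a4 (le_refl' _ _) v ?_ ?_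
      · exact (Val.iff_of_supp (low_below _) (Set.subset_univ _) hs1).1 hv
      · intro c' ε hc'
        obtain ⟨rfl, rfl⟩ : cc c = c' ∧ e k c = ε := by
          have := Option.some_injective _ hc'
          exact ⟨(Prod.mk.inj this).1, (Prod.mk.inj this).2⟩
        exact ⟨hlc, e0, (Val.iff_of_supp (low_below _) (Set.subset_univ _) hs2).1 he4, key⟩
    refine ⟨a4, h4R3, ?_⟩
    refine mem_fex.2 fun b hb => ⟨b, le_rfl, v, ?_, ?_⟩
    · exact down_meets _ _ (hX k a4 h4q n v hv) _ hb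
    · exact down_meets _ _ (meets_of_mem (P := PP Γ) (N := {r : PP Γ | n < (PP.toC r j).stem.length ∧
        v ∈ (PP.toC r j).stem.getD n ∅}) (p := a4) ⟨hlj, hmem⟩) _ hb

end Pool.Agent.W924.CF
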