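import Pool.Agent.W684.CF.BookStm

/-!
# The index types and the cardinalities
-/

set_option autoImplicit false
set_option linter.unusedSectionVars false

namespace Pool.Agent.W924.CF

open Classical Cardinal
open scoped Cardinal
open Pool.Agent.W684.CF

/-- the index set of the coordinates as a sum -/
def ixEmb {Ω Λ : Type} : Ix Ω Λ → (Λ ⊕ (Ω × Λ)) ⊕ ((Ω × Λ) ⊕ Ω)
  | .lz l => Sum.inl (Sum.inl l)
  | .co β a => Sum.inl (Sum.inr (β, a))
  | .sl β a => Sum.inr (Sum.inl (β, a))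
  | .dm β => Sum.inr (Sum.inr β)

theorem ixEmb_inj {Ω Λ : Type} : Function.Injective (ixEmb (Ω := Ω) (Λ := Λ)) := by
  intro x y h
  cases x <;> cases y <;> simp [ixEmb] at h <;> simp [h]

theorem mk_Ix {Ω Λ : Type} (hΛ : ℵ₀ ≤ #Λ) (hΩ : #Ω ≤ #Λ) : #(Ix Ω Λ) ≤ #Λ := by
  refine (Cardinal.mk_le_of_injective ixEmb_inj).trans ?_
  simp only [Cardinal.mk_sum, Cardinal.mk_prod, Cardinal.lift_id]
  have h1 : #Ω * #Λ ≤ #Λ := (mul_le_mul' hΩ le_rfl).trans (Cardinal.mul_eq_self hΛ).le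
  have h2 : ∀ a b : Cardinal.{0}, a ≤ #Λ → b ≤ #Λ → a + b ≤ #Λ := fun a b ha hb =>
    (add_le_add ha hb).trans (Cardinal.add_eq_self hΛ).le
  exact h2 _ _ (h2 _ _ le_rfl h1) (h2 _ _ h1 hΩ)

theorem mk_CV {M : Type} {c : Cardinal.{0}} (hc : ℵ₀ ≤ c) (hM : #M ≤ c) : #(CV M) ≤ c := by
  let f : CV M → List (Finset ℕ) × Finset M := fun v => (v.stem, v.pr)
  have hf : Function.Injective f := by
    rintro ⟨a, b⟩ ⟨a', b'⟩ h
    simp only [f, Prod.mk.injEq] at h
    rw [h.1, h.2]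
  refine (Cardinal.mk_le_of_injective hf).trans ?_
  rw [Cardinal.mk_prod, Cardinal.lift_id, Cardinal.lift_id]
  have h1 : #(Finset M) ≤ c := by
    rcases finite_or_infinite M with h | h
    · exact (Cardinal.lt_aleph0_of_finite _).le.trans hc
    · rw [Cardinal.mk_finset_of_infinite]
      exact hM
  calc #(List (Finset ℕ)) * #(Finset M) ≤ ℵ₀ * c := mul_le_mul' Cardinal.mk_le_aleph0 h1
    _ = c := Cardinal.aleph0_mul_eq hc

theorem mk_Cond {M I : Type} {rs : I → Prop} {c : Cardinal.{0}} (hc : ℵ₀ ≤ c) (hM : #M ≤ c)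
    (hI : #I ≤ c) : #(Cond M rs) ≤ c := by
  let f : Cond M rs → Finset (I × CV M) := fun u => u.supp.image fun i => (i, u i)
  have hf : Function.Injective f := by
    intro u w h
    have key : ∀ u w : Cond M rs, f u = f w → ∀ i : I, u i ≠ CV.top → w i = u i := by
      intro u w h i hi
      have h2 : (i, u i) ∈ f u := Finset.mem_image.2 ⟨i, Cond.mem_supp.2 hi, rfl⟩
      rw [h] at h2
      obtain ⟨i', _, h3⟩ := Finset.mem_image.1 h2
      rw [Prod.mk.injEq] at h3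
      obtain ⟨rfl, h4⟩ := h3
      exact h4
    apply Cond.ext'
    intro i
    by_cases h2 : u i = CV.top
    · by_cases h3 : w i = CV.top
      · rw [h2, h3]
      · exact key w u h.symm i h3
    · exact (key u w h i h2).symm
  refine (Cardinal.mk_le_of_injective hf).trans ?_
  have h2 : #(I × CV M) ≤ c := by
    rw [Cardinal.mk_prod, Cardinal.lift_id, Cardinal.lift_id]
    calc #I * #(CV M) ≤ c * c := mul_le_mul' hI (mk_CV hc hM)
      _ = c := Cardinal.mul_eq_self hc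
  rcases finite_or_infinite (I × CV M) with h3 | h3
  · exact (Cardinal.lt_aleph0_of_finite _).le.trans hc
  · rw [Cardinal.mk_finset_of_infinite]
    exact h2

theorem mk_Nm {M I : Type} {rs : I → Prop} {c : Cardinal.{0}} (hc : ℵ₀ ≤ c) (hc2 : c ^ ℵ₀ = c)
    (hM : #M ≤ c) (hI : #I ≤ c) : #(Nm M rs) ≤ c := by
  have h1 : #(Option (Cond M rs × ℕ)) ≤ c := by
    rw [Cardinal.mk_option, Cardinal.mk_prod, Cardinal.lift_id, Cardinal.lift_id]
    have h2 : #(Cond M rs) * #ℕ ≤ c :=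
      (mul_le_mul' (mk_Cond hc hM hI) Cardinal.mk_le_aleph0).trans (Cardinal.mul_aleph0_eq hc).le
    calc #(Cond M rs) * #ℕ + 1 ≤ c + c := add_le_add h2 (Cardinal.one_le_aleph0.trans hc)
      _ = c := Cardinal.add_eq_self hc
  have h2 : #(ℕ → ℕ → Option (Cond M rs × ℕ)) = #(Option (Cond M rs × ℕ)) ^ ℵ₀ := by
    rw [← Cardinal.mk_congr (Equiv.curry ℕ ℕ (Option (Cond M rs × ℕ)))]
    simp
  show #(ℕ → ℕ → Option (Cond M rs × ℕ)) ≤ c
  rw [h2]
  conv_rhs => rw [← hc2]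
  exact Cardinal.power_le_power_right h1

theorem card : S_CARD := by
  let K : Type := (Cardinal.aleph 1 : Cardinal.{0}).ord.ToType
  let Ω : Type := (Cardinal.aleph 2 : Cardinal.{0}).ord.ToType
  let Λ : Type := Set Ω
  have hK : #K = Cardinal.aleph 1 := Cardinal.mk_ord_toType _
  have hΩ : #Ω = Cardinal.aleph 2 := Cardinal.mk_ord_toType _
  have hΛ : #Λ = 2 ^ #Ω := Cardinal.mk_set
  have h12 : Order.succ (Cardinal.aleph 1 : Cardinal.{0}) = Cardinal.aleph 2 := by
    rw [Cardinal.succ_aleph, one_add_one_eq_two]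
  have hK0 : ℵ₀ < #K := by
    rw [hK]; exact Cardinal.aleph0_lt_aleph_one
  have hKΩ : #K < #Ω := by
    rw [hK, hΩ, ← h12]; exact Order.lt_succ _
  have hΩΛ : #Ω < #Λ := by
    rw [hΛ]; exact Cardinal.cantor _
  have hc : ℵ₀ ≤ #Λ := (hK0.trans (hKΩ.trans hΩΛ)).le
  have hpow : ∀ a : Cardinal.{0}, a ≠ 0 → a ≤ #Ω → #Λ ^ a = #Λ := by
    intro a ha0 ha
    rw [hΛ, ← Cardinal.power_mul, Cardinal.mul_eq_left (hK0.trans hKΩ).le ha ha0]
  have hc2 : #Λ ^ ℵ₀ = #Λ := hpow _ Cardinal.aleph0_ne_zero (hK0.trans hKΩ).le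
  have hc3 : #Λ ^ #K = #Λ := hpow _ (Cardinal.aleph0_pos.trans hK0).ne' hKΩ.le
  have hIio : ∀ k : K, (Set.Iio k).Countable := fun k => by
    rw [Cardinal.countable_iff_lt_aleph_one]
    exact Cardinal.mk_Iio_toType_ord_lt k
  have hunc : Uncountable K := Cardinal.aleph0_lt_mk_iff.1 hK0
  have hM : #(Λ ⊕ K) ≤ #Λ := by
    rw [Cardinal.mk_sum, Cardinal.lift_id, Cardinal.lift_id]
    exact (add_le_add le_rfl (hKΩ.trans hΩΛ).le).trans (Cardinal.add_eq_self hc).le
  have hI : #(Ix Ω Λ) ≤ #Λ := mk_Ix hc hΩΛ.le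
  have hN : #(NmI K Ω Λ) ≤ #Λ := mk_Nm hc hc2 hM hI
  refine ⟨K, Ω, Λ, inferInstance, inferInstance, inferInstance, inferInstance, hunc, hIio,
    fun k => ?_, fun f => ?_, ?_, fun F => ?_, ?_, ?_⟩
  · by_contra hcon
    push Not at hcon
    have h1 : (Set.univ : Set K) ⊆ insert k (Set.Iio k) := by
      intro k' _
      rcases (hcon k').lt_or_eq with h | h
      · exact Or.inr h
      · exact Or.inl h
    have h2 : (Set.univ : Set K).Countable := ((hIio k).insert k).mono h1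
    exact Set.not_countable_univ h2
  · by_contra hcon
    push Not at hcon
    have h1 : (Set.univ : Set Ω) = ⋃ k, Set.Iic (f k) := by
      ext β
      simp only [Set.mem_univ, Set.mem_iUnion, Set.mem_Iic, true_iff]
      exact hcon β
    have h2 : ∀ k, #(Set.Iic (f k)) ≤ #K := by
      intro k
      have h30 : #(Set.Iio (f k)) < Cardinal.aleph 2 := Cardinal.mk_Iio_toType_ord_lt (f k)
      have h3 : #(Set.Iio (f k)) ≤ #K := by
        rw [hK]
        exact Order.lt_succ_iff.1 (lt_of_lt_of_eq h30 h12.symm)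
      have h4 : Set.Iic (f k) = insert (f k) (Set.Iio (f k)) := by
        ext β
        simp only [Set.mem_Iic, Set.mem_insert_iff, Set.mem_Iio]
        exact le_iff_eq_or_lt
      rw [h4]
      refine (Cardinal.mk_insert_le).trans ?_
      exact (add_le_add h3 (Cardinal.one_le_aleph0.trans hK0.le)).trans
        (Cardinal.add_eq_self hK0.le).le
    have h3 : #Ω ≤ #K := by
      rw [← Cardinal.mk_univ, h1]
      refine (Cardinal.mk_iUnion_le _).trans ?_
      calc #K * _ ≤ #K * #K := mul_le_mul' le_rfl (ciSup_le' h2)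
        _ = #K := Cardinal.mul_eq_self hK0.le
    exact absurd h3 (not_le.2 hKΩ)
  · have h1 : #K ≤ #Λ := (hKΩ.trans hΩΛ).le
    obtain ⟨g⟩ := h1
    exact ⟨g, g.injective⟩
  · by_contra hcon
    push Not at hcon
    have h1 : (Set.univ : Set Λ) = ⋃ z, F ⁻¹' {z} := by
      ext a
      simp
    have h2 : #Λ ≤ #Ω := by
      rw [← Cardinal.mk_univ, h1]
      refine (Cardinal.mk_iUnion_le _).trans ?_
      have h3 : #(Ω × ℕ) ≤ #Ω := by
        rw [Cardinal.mk_prod, Cardinal.lift_id, Cardinal.lift_id]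
        exact (mul_le_mul' le_rfl Cardinal.mk_le_aleph0).trans
          (Cardinal.mul_aleph0_eq (hK0.trans hKΩ).le).le
      calc #(Ω × ℕ) * _ ≤ #Ω * ℵ₀ := by
            apply mul_le_mul' h3
            apply ciSup_le'
            intro z
            exact Cardinal.mk_le_aleph0_iff.2 (hcon z).to_subtype
        _ = #Ω := Cardinal.mul_aleph0_eq (hK0.trans hKΩ).le
    exact absurd h2 (not_le.2 hΩΛ)
  · obtain ⟨g⟩ := hN
    have : Nonempty (NmI K Ω Λ) := ⟨fun _ _ => none⟩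
    exact ⟨Function.invFun g, Function.invFun_surjective g.injective⟩
  · have h1 : #(NmI K Ω Λ × (Ω × Λ) × NmI K Ω Λ) ≤ #Λ := by
      simp only [Cardinal.mk_prod, Cardinal.lift_id]
      calc #(NmI K Ω Λ) * (#Ω * #Λ * #(NmI K Ω Λ)) ≤ #Λ * (#Λ * #Λ * #Λ) :=
            mul_le_mul' hN (mul_le_mul' (mul_le_mul' hΩΛ.le le_rfl) hN)
        _ = #Λ := by
            rw [Cardinal.mul_eq_self hc, Cardinal.mul_eq_self hc, Cardinal.mul_eq_self hc]
    have h2 : #(K → NmI K Ω Λ × (Ω × Λ) × NmI K Ω Λ) ≤ #Λ := by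
      rw [← Cardinal.power_def]
      conv_rhs => rw [← hc3]
      exact Cardinal.power_le_power_right h1
    have h3 : #(Option K × (K → NmI K Ω Λ × (Ω × Λ) × NmI K Ω Λ)) ≤ #Λ := by
      rw [Cardinal.mk_prod, Cardinal.lift_id, Cardinal.lift_id, Cardinal.mk_option]
      have h4 : #K + 1 ≤ #Λ := (add_le_add (hKΩ.trans hΩΛ).le (Cardinal.one_le_aleph0.trans hc)).trans
        (Cardinal.add_eq_self hc).le
      exact (mul_le_mul' h4 h2).trans (Cardinal.mul_eq_self hc).le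
    obtain ⟨g⟩ := h3
    exact ⟨g, g.injective⟩

end Pool.Agent.W924.CF
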