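import Pool.Agent.W684.CF.Stm

/-!
# Meager sets of the Cantor space and partitions (the space `ℕ → Bool`)
-/

set_option autoImplicit false
set_option linter.unusedSectionVars false

namespace Pool.Agent.W924.CF

open Classical
open Pool.Agent.W684.CF (Cant)

/-- `A` is an infinite set of natural numbers. -/
def Inf (A : ℕ → Prop) : Prop := ∀ m, ∃ n, m ≤ n ∧ A n

/-- `[a, a')` is an interval of the partition given by `A`. -/
def Next (A : ℕ → Prop) (a a' : ℕ) : Prop :=
  a < a' ∧ A a ∧ A a' ∧ ∀ c, A c → c ≤ a ∨ a' ≤ c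

theorem exists_cyl {U : Set Cant} (hU : IsOpen U) {m : Cant} (hm : m ∈ U) :
    ∃ k, ∀ m' : Cant, (∀ i < k, m' i = m i) → m' ∈ U := by
  obtain ⟨F, u, h1, h2⟩ := isOpen_pi_iff.1 hU m hm
  refine ⟨F.sup id + 1, fun m' hm' => h2 fun i hi => ?_⟩
  have h3 : i ≤ F.sup id := Finset.le_sup (f := id) hi
  rw [hm' i (by omega)]
  exact (h1 i hi).2

theorem isOpen_cyl (m : Cant) (k : ℕ) : IsOpen {m' : Cant | ∀ i < k, m' i = m i} := by
  have : {m' : Cant | ∀ i < k, m' i = m i} =
      ⋂ i ∈ Set.Iio k, (fun m' : Cant => m' i) ⁻¹' {m i} := by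
    ext m'
    simp
  rw [this]
  exact (Set.finite_Iio k).isOpen_biInter fun i _ =>
    (isOpen_discrete _).preimage (continuous_apply i)

theorem isOpen_eq_at (n : ℕ) (c : Bool) : IsOpen {m : Cant | m n = c} := by
  have : {m : Cant | m n = c} = (fun m : Cant => m n) ⁻¹' {c} := rfl
  rw [this]
  exact (isOpen_discrete _).preimage (continuous_apply n)

/-- different from `z` on almost all intervals of the partition -/
def NM (A : ℕ → Prop) (z : Cant) : Set Cant :=
  {m | ∃ N, ∀ a a', N ≤ a → Next A a a' → ∃ n, a ≤ n ∧ n < a' ∧ m n ≠ z n}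

theorem exists_next {A : ℕ → Prop} (hA : Inf A) {a : ℕ} (ha : A a) : ∃ a', Next A a a' := by
  have hex : ∃ n, a < n ∧ A n := by
    obtain ⟨n, hn, hn'⟩ := hA (a + 1)
    exact ⟨n, hn, hn'⟩
  have h1 := Nat.find_spec hex
  refine ⟨Nat.find hex, h1.1, ha, h1.2, fun c hc => ?_⟩
  by_contra hcon
  push Not at hcon
  exact Nat.find_min hex hcon.2 ⟨hcon.1, hc⟩

theorem Next.unique {A : ℕ → Prop} {a a' a'' : ℕ} (h : Next A a a') (h' : Next A a a'') :
    a' = a'' := by
  rcases h.2.2.2 a'' h'.2.2.1 with h1 | h1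
  · exact absurd h'.1 (not_lt.2 h1)
  · rcases h'.2.2.2 a' h.2.2.1 with h2 | h2
    · exact absurd h.1 (not_lt.2 h2)
    · exact le_antisymm h1 h2

theorem isMeagre_NM {A : ℕ → Prop} (hA : Inf A) (z : Cant) : IsMeagre (NM A z) := by
  have h1 : NM A z = ⋃ N, {m : Cant | ∀ a a', N ≤ a → Next A a a' →
      ∃ n, a ≤ n ∧ n < a' ∧ m n ≠ z n} := by
    ext m
    simp [NM]
  rw [h1]
  apply isMeagre_iUnion
  intro N
  apply IsNowhereDense.isMeagre
  have hcl : IsClosed {m : Cant | ∀ a a', N ≤ a → Next A a a' →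
      ∃ n, a ≤ n ∧ n < a' ∧ m n ≠ z n} := by
    rw [← isOpen_compl_iff]
    have h2 : {m : Cant | ∀ a a', N ≤ a → Next A a a' →
        ∃ n, a ≤ n ∧ n < a' ∧ m n ≠ z n}ᶜ = ⋃ a, ⋃ a', ⋃ (_ : N ≤ a ∧ Next A a a'),
          ⋂ n ∈ Set.Ico a a', {m : Cant | m n = z n} := by
      ext m
      simp only [Set.mem_compl_iff, Set.mem_ofPred_eq, not_forall, not_exists, Set.mem_iUnion,
        Set.mem_iInter, Set.mem_Ico]
      constructor
      · rintro ⟨a, a', ha, hn, h⟩
        refine ⟨a, a', ⟨ha, hn⟩, fun n hn => ?_⟩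
        by_contra hne
        exact h n ⟨hn.1, hn.2, hne⟩
      · rintro ⟨a, a', ⟨ha, hn⟩, h⟩
        exact ⟨a, a', ha, hn, fun n ⟨h3, h4, h5⟩ => h5 (h n ⟨h3, h4⟩)⟩
    rw [h2]
    refine isOpen_iUnion fun a => isOpen_iUnion fun a' => isOpen_iUnion fun _ => ?_
    exact (Set.finite_Ico a a').isOpen_biInter fun n _ => isOpen_eq_at n _
  rw [hcl.isNowhereDense_iff, Set.eq_empty_iff_forall_notMem]
  intro m hm
  obtain ⟨k, hk⟩ := exists_cyl isOpen_interior hm
  obtain ⟨a, ha, hAa⟩ := hA (max N k)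
  obtain ⟨a', ha'⟩ := exists_next hA hAa
  have h2 := interior_subset (hk (fun i => if i < k then m i else z i)
    fun i hi => if_pos hi)
  obtain ⟨n, hn, hn', hne⟩ := h2 a a' ((le_max_left _ _).trans ha) ha'
  apply hne
  have h3 : ¬ n < k := by
    have := (le_max_right N k).trans ha
    omega
  exact if_neg h3

theorem exists_step {U : Set Cant} (hU : IsOpen U) (hd : Dense U) (a : ℕ) :
    ∃ a', a < a' ∧ ∃ z : Cant, ∀ m : Cant, (∀ n, a ≤ n → n < a' → m n = z n) → m ∈ U := by
  have key : ∀ L : List Cant, ∃ a', a < a' ∧ ∃ z : Cant, ∀ s ∈ L, ∀ m : Cant,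
      (∀ i < a, m i = s i) → (∀ n, a ≤ n → n < a' → m n = z n) → m ∈ U := by
    intro L
    induction L with
    | nil => exact ⟨a + 1, Nat.lt_succ_self a, fun _ => false, fun s hs => absurd hs List.not_mem_nil⟩
    | cons s L ih =>
      obtain ⟨a', ha', z, h⟩ := ih
      obtain ⟨m0, hm0, hm0U⟩ := hd.inter_open_nonempty _
        (isOpen_cyl (fun i => if i < a then s i else z i) a')
        ⟨fun i => if i < a then s i else z i, fun _ _ => rfl⟩
      obtain ⟨k, hk⟩ := exists_cyl hU hm0U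
      refine ⟨max a' k, ha'.trans_le (le_max_left _ _), m0, fun s' hs' m hm hm' => ?_⟩
      rcases List.mem_cons.1 hs' with rfl | hs'
      · apply hk
        intro i hi
        by_cases hia : i < a
        · rw [hm i hia, hm0 i (hia.trans ha')]
          exact (if_pos hia).symm
        · exact hm' i (not_lt.1 hia) (hi.trans_le (le_max_right _ _))
      · refine h s' hs' m hm fun n hn hn' => ?_
        rw [hm' n hn (hn'.trans_le (le_max_left _ _)), hm0 n hn']
        exact if_neg (not_lt.2 hn)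
  obtain ⟨a', ha', z, h⟩ := key ((Finset.univ : Finset (Fin a → Bool)).toList.map fun s i =>
    if h : i < a then s ⟨i, h⟩ else false)
  refine ⟨a', ha', z, fun m hm => ?_⟩
  refine h (fun i => if h : i < a then m i else false) ?_ m (fun i hi => ?_) hm
  · exact List.mem_map.2 ⟨fun i => m i.1, by simp, rfl⟩
  · show m i = if h : i < a then m i else false
    rw [dif_pos hi]

theorem exists_dense_seq {M : Set Cant} (hM : IsMeagre M) : ∃ V : ℕ → Set Cant,
    (∀ n, IsOpen (V n)) ∧ (∀ n, Dense (V n)) ∧ ∀ m ∈ M, ∃ n, ∀ k, n ≤ k → m ∉ V k := by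
  obtain ⟨S, h1, h2, h3⟩ := isMeagre_iff_countable_union_isNowhereDense.1 hM
  have h4 : (insert ∅ S).Countable := h2.insert ∅
  obtain ⟨f, hf⟩ := h4.exists_eq_range (Set.insert_nonempty _ _)
  have h5 : ∀ n, IsNowhereDense (f n) := by
    intro n
    have : f n ∈ insert ∅ S := hf ▸ ⟨n, rfl⟩
    rcases this with h | h
    · rw [h]
      exact isNowhereDense_empty
    · exact h1 _ h
  let V : ℕ → Set Cant := fun n => Nat.rec (closure (f 0))ᶜ
    (fun n v => v ∩ (closure (f (n + 1)))ᶜ) n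
  have hV : ∀ n, IsOpen (V n) ∧ Dense (V n) := by
    intro n
    have h6 : ∀ n, IsOpen (closure (f n))ᶜ ∧ Dense (closure (f n))ᶜ := fun n =>
      ⟨isClosed_closure.isOpen_compl, interior_eq_empty_iff_dense_compl.1 (h5 n)⟩
    induction n with
    | zero => exact h6 0
    | succ n ih =>
      exact ⟨ih.1.inter (h6 (n + 1)).1, ih.2.inter_of_isOpen_left (h6 (n + 1)).2 ih.1⟩
  refine ⟨V, fun n => (hV n).1, fun n => (hV n).2, fun m hm => ?_⟩
  obtain ⟨t, ht, hmt⟩ := h3 hm
  have h6 : t ∈ insert ∅ S := Or.inr ht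
  rw [hf] at h6
  obtain ⟨n, rfl⟩ := h6
  refine ⟨n, fun k hk => ?_⟩
  induction k, hk using Nat.le_induction with
  | base =>
    intro h
    cases n with
    | zero => exact h (subset_closure hmt)
    | succ n => exact h.2 (subset_closure hmt)
  | succ k hk ih => exact fun h => ih h.1

/-- every meager set is contained in a set given by a partition -/
theorem exists_NM {M : Set Cant} (hM : IsMeagre M) :
    ∃ A : ℕ → Prop, Inf A ∧ ∃ z : Cant, M ⊆ NM A z := by
  obtain ⟨V, hVo, hVd, hV⟩ := exists_dense_seq hM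
  choose nxt hnxt zz hzz using fun n a => exists_step (hVo n) (hVd n) a
  let a : ℕ → ℕ := fun n => Nat.rec 0 (fun n a => nxt n a) n
  have ha : ∀ n, a (n + 1) = nxt n (a n) := fun _ => rfl
  have hlt : ∀ n, a n < a (n + 1) := fun n => hnxt n (a n)
  have hmono : StrictMono a := strictMono_nat_of_lt_succ hlt
  have hex : ∀ i, ∃ n, i < a (n + 1) := fun i =>
    ⟨i, (Nat.lt_succ_self i).trans_le (hmono.id_le (i + 1))⟩
  let z : Cant := fun i => zz (Nat.find (hex i)) (a (Nat.find (hex i))) i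
  have hz : ∀ n i, a n ≤ i → i < a (n + 1) → z i = zz n (a n) i := by
    intro n i h1 h2
    have h3 : Nat.find (hex i) = n := by
      apply le_antisymm
      · exact Nat.find_min' _ h2
      · by_contra hcon
        have h4 := Nat.find_spec (hex i)
        have h6 : Nat.find (hex i) + 1 ≤ n := by omega
        have h5 := hmono.monotone h6
        omega
    show zz (Nat.find (hex i)) (a (Nat.find (hex i))) i = _
    rw [h3]
  refine ⟨fun c => ∃ n, a n = c, fun m => ⟨a m, hmono.id_le m, m, rfl⟩, z, fun m hm => ?_⟩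
  obtain ⟨n, hn⟩ := hV m hm
  refine ⟨a n, fun c c' hc hnext => ?_⟩
  obtain ⟨k, rfl⟩ := hnext.2.1
  have hk : n ≤ k := hmono.le_iff_le.1 hc
  have hc' : c' = a (k + 1) := by
    obtain ⟨l, hl⟩ := hnext.2.2.1
    have h1 : k < l := hmono.lt_iff_lt.1 (hl ▸ hnext.1)
    rcases hnext.2.2.2 (a (k + 1)) ⟨k + 1, rfl⟩ with h2 | h2
    · exact absurd (hlt k) (not_lt.2 h2)
    · have h3 : a (k + 1) ≤ a l := hmono.monotone h1
      omega
  apply Classical.byContradiction
  intro hcon
  push Not at hcon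
  refine hn k hk (hzz k (a k) m fun i hi hi' => ?_)
  rw [hcon i hi (by rw [hc', ha]; exact hi')]
  exact hz k i hi (by rw [ha]; exact hi')

end Pool.Agent.W924.CF
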